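import Pool.Agent.Lib.MP_8024d7_al.Main

open Pool.Agent.Lib.MP_8024d7_al LieAlgebra.SpecialLinear

namespace Pool.Agent.Results.MP_8024d7_al.FrobeniusParabolic

/-- For every `n ≥ 3` there are `e` in the `SL_n`-orbit of the nilpotent Jordan matrix of type
`λ` and a Frobenius parabolic subalgebra `p` of minimal dimension in `sl_n` such that `sl_n` is
the direct sum of the centraliser of `e` and `p`. -/
theorem result (K : Type*) [Field K] [IsAlgClosed K] [CharZero K] (n : ℕ) (hn : 3 ≤ n) :
    ∃ e : sl (Fin n) K,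
      (∃ g : Matrix.SpecialLinearGroup (Fin n) K,
        (e : Matrix (Fin n) (Fin n) K) =
          (g : Matrix (Fin n) (Fin n) K) * jordanMatrix K n (partitionOf n) *
            ((g⁻¹ : Matrix.SpecialLinearGroup (Fin n) K) : Matrix (Fin n) (Fin n) K)) ∧
      ∃ p : LieSubalgebra K (sl (Fin n) K),
        IsMinFrobeniusParabolic p ∧
        IsCompl (LinearMap.ker (LieAlgebra.ad K (sl (Fin n) K) e)) p.toSubmodule := by
  obtain ⟨e, he, h⟩ := main (K := K) n hn
  exact ⟨e, ⟨1, by simp [he]⟩, h⟩

end Pool.Agent.Results.MP_8024d7_al.FrobeniusParabolic
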